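import Mathlib

/-!
# The Prekopa-Leindler inequality with a general weight `l`

(The midpoint case is in `Pool/Agent/H84/PrekopaLeindler.lean`; this file follows it.)
-/

set_option autoImplicit false

open MeasureTheory Set
open scoped ENNReal NNReal Pointwise

namespace Pool.Agent.H82.LSI

/-- One-dimensional Brunn-Minkowski inequality. -/
theorem bm_real {l : ℝ} (hl : 0 < l) (hl1 : l < 1) {A B C : Set ℝ} (hA : MeasurableSet A)
    (hB : MeasurableSet B) (hA0 : A.Nonempty) (hB0 : B.Nonempty)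
    (h : ∀ a ∈ A, ∀ b ∈ B, l * a + (1 - l) * b ∈ C) :
    ENNReal.ofReal l * volume A + ENNReal.ofReal (1 - l) * volume B ≤ volume C := by
  obtain ⟨a0, ha0⟩ := hA0
  obtain ⟨b0, hb0⟩ := hB0
  have hl' : 0 < 1 - l := by linarith
  rw [hA.measure_eq_iSup_isCompact volume, hB.measure_eq_iSup_isCompact volume]
  have key : ∀ K : Set ℝ, K ⊆ A → IsCompact K → ∀ L : Set ℝ, L ⊆ B → IsCompact L →
      ENNReal.ofReal l * volume K + ENNReal.ofReal (1 - l) * volume L ≤ volume C := by
    intro K hKA hK L hLB hL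
    set K' := insert a0 K with hK'
    set L' := insert b0 L with hL'
    have hK'c : IsCompact K' := hK.insert a0
    have hL'c : IsCompact L' := hL.insert b0
    have hK'A : K' ⊆ A := insert_subset ha0 hKA
    have hL'B : L' ⊆ B := insert_subset hb0 hLB
    have hK'n : K'.Nonempty := ⟨a0, mem_insert _ _⟩
    have hL'n : L'.Nonempty := ⟨b0, mem_insert _ _⟩
    obtain ⟨a, haK, haM⟩ := hK'c.exists_isGreatest hK'n
    obtain ⟨b, hbL, hbm⟩ := hL'c.exists_isLeast hL'n
    let S : Set ℝ := (fun x => l * x + (1 - l) * b) '' K'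
    let T : Set ℝ := (fun y => l * a + (1 - l) * y) '' L'
    have hTc : IsCompact T := hL'c.image (by fun_prop)
    have hSC : S ⊆ C := by
      rintro _ ⟨x, hx, rfl⟩
      exact h x (hK'A hx) b (hL'B hbL)
    have hTC : T ⊆ C := by
      rintro _ ⟨y, hy, rfl⟩
      exact h a (hK'A haK) y (hL'B hy)
    have hST : S ∩ T ⊆ {l * a + (1 - l) * b} := by
      rintro z ⟨⟨x, hx, hxz⟩, ⟨y, hy, hyz⟩⟩
      have h1 : x ≤ a := haM hx
      have h2 : b ≤ y := hbm hy
      simp only [mem_singleton_iff]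
      simp only at hxz hyz
      have h3 : l * x ≤ l * a := mul_le_mul_of_nonneg_left h1 hl.le
      have h4 : (1 - l) * b ≤ (1 - l) * y := mul_le_mul_of_nonneg_left h2 hl'.le
      linarith
    have hST0 : volume (S ∩ T) = 0 :=
      measure_mono_null hST (by simp)
    have hvS : volume S = ENNReal.ofReal l * volume K' := by
      have : S = (fun x => x + (1 - l) * b) '' ((fun x => l * x) '' K') := by
        rw [image_image]
      rw [this, image_add_right, measure_preimage_add_right]
      have h3 : (fun x : ℝ => l * x) '' K' = l • K' := rfl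
      rw [h3, Measure.addHaar_smul]
      simp only [Module.finrank_self, pow_one]
      rw [abs_of_pos hl]
    have hvT : volume T = ENNReal.ofReal (1 - l) * volume L' := by
      have : T = (fun x => x + l * a) '' ((fun x => (1 - l) * x) '' L') := by
        rw [image_image]
        apply image_congr'
        intro x
        ring
      rw [this, image_add_right, measure_preimage_add_right]
      have h3 : (fun x : ℝ => (1 - l) * x) '' L' = (1 - l) • L' := rfl
      rw [h3, Measure.addHaar_smul]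
      simp only [Module.finrank_self, pow_one]
      rw [abs_of_pos hl']
    have hun : volume (S ∪ T) = volume S + volume T := by
      have := measure_union_add_inter S hTc.measurableSet (μ := volume)
      rw [hST0, add_zero] at this
      exact this
    calc ENNReal.ofReal l * volume K + ENNReal.ofReal (1 - l) * volume L
        ≤ ENNReal.ofReal l * volume K' + ENNReal.ofReal (1 - l) * volume L' :=
          add_le_add (by gcongr; exact subset_insert _ _) (by gcongr; exact subset_insert _ _)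
      _ = volume (S ∪ T) := by rw [hun, hvS, hvT]
      _ ≤ volume C := by gcongr; exact union_subset hSC hTC
  simp only [iSup_and', ENNReal.mul_iSup]
  apply ENNReal.biSup_add_biSup_le' ⟨∅, empty_subset _, isCompact_empty⟩
    ⟨∅, empty_subset _, isCompact_empty⟩
  rintro K ⟨hKA, hK⟩ L ⟨hLB, hL⟩
  exact key K hKA hK L hLB hL

/-- The Prékopa–Leindler property of a space. -/
def PLl (l : ℝ) (E : Type*) [AddCommGroup E] [Module ℝ E] [MeasureSpace E] : Prop :=
  ∀ f g h : E → ℝ≥0∞, Measurable f → Measurable g → Measurable h →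
    (∀ x y, f x ^ l * g y ^ (1 - l) ≤ h (l • x + (1 - l) • y)) →
    (∫⁻ x, f x) ^ l * (∫⁻ x, g x) ^ (1 - l) ≤ ∫⁻ x, h x

/-- AM-GM in `ℝ≥0∞`. -/
theorem ennreal_amgm {l : ℝ} (hl : 0 < l) (hl1 : l < 1) (a b c : ℝ≥0∞)
    (h : ENNReal.ofReal l * a + ENNReal.ofReal (1 - l) * b ≤ c) : a ^ l * b ^ (1 - l) ≤ c := by
  have hl' : 0 < 1 - l := by linarith
  rcases eq_or_ne c ⊤ with hc | hc
  · simp [hc]
  have hl0 : ENNReal.ofReal l ≠ 0 := by simpa using hl
  have hl0' : ENNReal.ofReal (1 - l) ≠ 0 := by simpa using hl1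
  have hab : ENNReal.ofReal l * a + ENNReal.ofReal (1 - l) * b ≠ ⊤ := ne_top_of_le_ne_top hc h
  have ha : a ≠ ⊤ := fun h' => hab (by simp [h', ENNReal.mul_top hl0])
  have hb : b ≠ ⊤ := fun h' => hab (by simp [h', ENNReal.mul_top hl0'])
  lift a to ℝ≥0 using ha
  lift b to ℝ≥0 using hb
  lift c to ℝ≥0 using hc
  have hw : (l.toNNReal + (1 - l).toNNReal : ℝ≥0) = 1 := by
    rw [← Real.toNNReal_add hl.le hl'.le]
    simp
  have h1 := NNReal.geom_mean_le_arith_mean2_weighted l.toNNReal (1 - l).toNNReal a b hw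
  rw [Real.coe_toNNReal _ hl.le, Real.coe_toNNReal _ hl'.le] at h1
  have h2 : (l.toNNReal * a + (1 - l).toNNReal * b : ℝ≥0) ≤ c := by
    have h3 : ((l.toNNReal * a + (1 - l).toNNReal * b : ℝ≥0) : ℝ≥0∞) ≤ c := by
      push_cast
      exact h
    exact_mod_cast h3
  rw [← ENNReal.coe_rpow_of_nonneg _ hl.le, ← ENNReal.coe_rpow_of_nonneg _ hl'.le]
  exact_mod_cast h1.trans h2

/-- One-dimensional case for real functions with supremum exactly one. -/
theorem pll_real_aux {l : ℝ} (hl : 0 < l) (hl1 : l < 1) (f g h : ℝ → ℝ) (hf : Measurable f)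
    (hg : Measurable g) (hh : Measurable h)
    (f0 : ∀ x, 0 ≤ f x) (g0 : ∀ x, 0 ≤ g x) (h0 : ∀ x, 0 ≤ h x)
    (f1 : ∀ x, f x ≤ 1) (g1 : ∀ x, g x ≤ 1)
    (fs : ∀ t < 1, ∃ x, t < f x) (gs : ∀ t < 1, ∃ x, t < g x)
    (H : ∀ x y, f x ^ l * g y ^ (1 - l) ≤ h (l * x + (1 - l) * y)) :
    ENNReal.ofReal l * (∫⁻ x, ENNReal.ofReal (f x)) +
      ENNReal.ofReal (1 - l) * (∫⁻ x, ENNReal.ofReal (g x)) ≤ ∫⁻ x, ENNReal.ofReal (h x) := by
  have hl' : 0 < 1 - l := by linarith
  rw [lintegral_eq_lintegral_meas_lt volume (Filter.Eventually.of_forall f0) hf.aemeasurable,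
    lintegral_eq_lintegral_meas_lt volume (Filter.Eventually.of_forall g0) hg.aemeasurable,
    lintegral_eq_lintegral_meas_lt volume (Filter.Eventually.of_forall h0) hh.aemeasurable]
  have mf : Measurable fun t => volume {a | t < f a} :=
    Antitone.measurable fun s t hst => measure_mono fun x hx => lt_of_le_of_lt hst hx
  rw [← lintegral_const_mul' _ _ ENNReal.ofReal_ne_top,
    ← lintegral_const_mul' _ _ ENNReal.ofReal_ne_top, ← lintegral_add_left (mf.const_mul _)]
  apply setLIntegral_mono' measurableSet_Ioi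
  intro t ht
  rw [mem_Ioi] at ht
  rcases lt_or_ge t 1 with h1 | h1
  · apply bm_real hl hl1 (measurableSet_lt measurable_const hf)
      (measurableSet_lt measurable_const hg) (fs t h1) (gs t h1)
    intro a ha b hb
    simp only [mem_ofPred_eq] at ha hb ⊢
    have h2 := H a b
    have h3 : t < f a ^ l * g b ^ (1 - l) := by
      calc t = t ^ l * t ^ (1 - l) := by
            rw [← Real.rpow_add ht]
            simp
        _ < f a ^ l * g b ^ (1 - l) :=
            mul_lt_mul'' (Real.rpow_lt_rpow ht.le ha hl) (Real.rpow_lt_rpow ht.le hb hl')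
              (Real.rpow_nonneg ht.le _) (Real.rpow_nonneg ht.le _)
    exact lt_of_lt_of_le h3 h2
  · have e1 : {a | t < f a} = ∅ := by
      ext x; simp only [mem_ofPred_eq, mem_empty_iff_false, iff_false, not_lt]
      exact (f1 x).trans h1
    have e2 : {a | t < g a} = ∅ := by
      ext x; simp only [mem_ofPred_eq, mem_empty_iff_false, iff_false, not_lt]
      exact (g1 x).trans h1
    simp [e1, e2]

theorem pll_real_bdd {l : ℝ} (hl : 0 < l) (hl1 : l < 1) (f g h : ℝ → ℝ≥0∞) (hf : Measurable f)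
    (hg : Measurable g)
    (hh : Measurable h) (M N : ℝ≥0∞) (hM0 : M ≠ 0) (hN0 : N ≠ 0) (hM : M ≠ ⊤) (hN : N ≠ ⊤)
    (fM : ⨆ x, f x = M) (gN : ⨆ x, g x = N)
    (H : ∀ x y, f x ^ l * g y ^ (1 - l) ≤ h (l • x + (1 - l) • y)) :
    (∫⁻ x, f x) ^ l * (∫⁻ x, g x) ^ (1 - l) ≤ ∫⁻ x, h x := by
  have hl' : 0 < 1 - l := by linarith
  set c : ℝ≥0∞ := M ^ l * N ^ (1 - l) with hc
  have hMl0 : M ^ l ≠ 0 := by
    simp only [ne_eq, ENNReal.rpow_eq_zero_iff, hM0, hM, false_and, or_self, not_false_eq_true]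
  have hNl0 : N ^ (1 - l) ≠ 0 := by
    simp only [ne_eq, ENNReal.rpow_eq_zero_iff, hN0, hN, false_and, or_self, not_false_eq_true]
  have hMlt : M ^ l ≠ ⊤ := ENNReal.rpow_ne_top_of_nonneg hl.le hM
  have hNlt : N ^ (1 - l) ≠ ⊤ := ENNReal.rpow_ne_top_of_nonneg hl'.le hN
  have hc0 : c ≠ 0 := mul_ne_zero hMl0 hNl0
  have hct : c ≠ ⊤ := ENNReal.mul_ne_top hMlt hNlt
  let f1 : ℝ → ℝ := fun x => (f x / M).toReal
  let g1 : ℝ → ℝ := fun x => (g x / N).toReal
  let h1 : ℝ → ℝ := fun x => (min (h x / c) 1).toReal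
  have fle : ∀ x, f x / M ≤ 1 := fun x => by
    rw [ENNReal.div_le_iff hM0 hM, one_mul, ← fM]; exact le_iSup f x
  have gle : ∀ x, g x / N ≤ 1 := fun x => by
    rw [ENNReal.div_le_iff hN0 hN, one_mul, ← gN]; exact le_iSup g x
  have fe : ∀ x, ENNReal.ofReal (f1 x) = f x / M := fun x =>
    ENNReal.ofReal_toReal (ne_top_of_le_ne_top ENNReal.one_ne_top (fle x))
  have ge : ∀ x, ENNReal.ofReal (g1 x) = g x / N := fun x =>
    ENNReal.ofReal_toReal (ne_top_of_le_ne_top ENNReal.one_ne_top (gle x))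
  have he : ∀ x, ENNReal.ofReal (h1 x) = min (h x / c) 1 := fun x =>
    ENNReal.ofReal_toReal (ne_top_of_le_ne_top ENNReal.one_ne_top (min_le_right _ _))
  have main := pll_real_aux hl hl1 f1 g1 h1 (by fun_prop) (by fun_prop) (by fun_prop)
    (fun x => ENNReal.toReal_nonneg) (fun x => ENNReal.toReal_nonneg)
    (fun x => ENNReal.toReal_nonneg)
    (fun x => by
      have := ENNReal.toReal_mono ENNReal.one_ne_top (fle x)
      rwa [ENNReal.toReal_one] at this)
    (fun x => by
      have := ENNReal.toReal_mono ENNReal.one_ne_top (gle x)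
      rwa [ENNReal.toReal_one] at this)
    (by
      intro t ht
      rcases lt_or_ge t 0 with h0 | h0
      · exact ⟨0, lt_of_lt_of_le h0 ENNReal.toReal_nonneg⟩
      have h2 : ENNReal.ofReal t * M < M := by
        calc ENNReal.ofReal t * M < 1 * M := by
              apply ENNReal.mul_lt_mul_left hM0 hM
              simpa using ENNReal.ofReal_lt_one.2 ht
          _ = M := one_mul _
      rw [← fM] at h2
      obtain ⟨x, hx⟩ := lt_iSup_iff.1 h2
      rw [fM] at hx
      refine ⟨x, ?_⟩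
      have h3 : ENNReal.ofReal t < f x / M := by
        rwa [ENNReal.lt_div_iff_mul_lt (Or.inl hM0) (Or.inl hM)]
      have := (ENNReal.toReal_lt_toReal ENNReal.ofReal_ne_top
        (ne_top_of_le_ne_top ENNReal.one_ne_top (fle x))).2 h3
      rwa [ENNReal.toReal_ofReal h0] at this)
    (by
      intro t ht
      rcases lt_or_ge t 0 with h0 | h0
      · exact ⟨0, lt_of_lt_of_le h0 ENNReal.toReal_nonneg⟩
      have h2 : ENNReal.ofReal t * N < N := by
        calc ENNReal.ofReal t * N < 1 * N := by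
              apply ENNReal.mul_lt_mul_left hN0 hN
              simpa using ENNReal.ofReal_lt_one.2 ht
          _ = N := one_mul _
      rw [← gN] at h2
      obtain ⟨x, hx⟩ := lt_iSup_iff.1 h2
      rw [gN] at hx
      refine ⟨x, ?_⟩
      have h3 : ENNReal.ofReal t < g x / N := by
        rwa [ENNReal.lt_div_iff_mul_lt (Or.inl hN0) (Or.inl hN)]
      have := (ENNReal.toReal_lt_toReal ENNReal.ofReal_ne_top
        (ne_top_of_le_ne_top ENNReal.one_ne_top (gle x))).2 h3
      rwa [ENNReal.toReal_ofReal h0] at this)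
    (by
      intro x y
      have hxy := H x y
      rw [smul_eq_mul, smul_eq_mul] at hxy
      have h3 : (f x / M) ^ l * (g y / N) ^ (1 - l) ≤
          min (h (l * x + (1 - l) * y) / c) 1 := by
        refine le_min ?_ ?_
        · have e1 : (f x / M) ^ l * (g y / N) ^ (1 - l) =
              (f x ^ l * g y ^ (1 - l)) / c := by
            rw [ENNReal.div_rpow_of_nonneg _ _ hl.le, ENNReal.div_rpow_of_nonneg _ _ hl'.le, hc,
              ENNReal.div_eq_inv_mul, ENNReal.div_eq_inv_mul, ENNReal.div_eq_inv_mul,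
              ENNReal.mul_inv (Or.inl hMl0) (Or.inl hMlt)]
            ring
          rw [e1]
          gcongr
        · calc (f x / M) ^ l * (g y / N) ^ (1 - l) ≤ 1 ^ l * 1 ^ (1 - l) :=
                mul_le_mul' (ENNReal.rpow_le_rpow (fle x) hl.le)
                  (ENNReal.rpow_le_rpow (gle y) hl'.le)
            _ = 1 := by simp
      have h4 := ENNReal.toReal_mono
        (ne_top_of_le_ne_top ENNReal.one_ne_top (min_le_right _ _)) h3
      rw [ENNReal.toReal_mul, ← ENNReal.toReal_rpow, ← ENNReal.toReal_rpow] at h4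
      exact h4)
  simp only [fe, ge, he] at main
  have m2 : ENNReal.ofReal l * (∫⁻ x, f x / M) + ENNReal.ofReal (1 - l) * (∫⁻ x, g x / N) ≤
      ∫⁻ x, h x / c :=
    main.trans (by gcongr; exact min_le_left _ _)
  have m3 := ennreal_amgm hl hl1 _ _ _ m2
  simp only [ENNReal.div_eq_inv_mul] at m3
  rw [lintegral_const_mul' _ _ (ENNReal.inv_ne_top.2 hM0),
    lintegral_const_mul' _ _ (ENNReal.inv_ne_top.2 hN0),
    lintegral_const_mul' _ _ (ENNReal.inv_ne_top.2 hc0),
    ENNReal.mul_rpow_of_nonneg _ _ hl.le, ENNReal.mul_rpow_of_nonneg _ _ hl'.le,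
    ENNReal.inv_rpow, ENNReal.inv_rpow] at m3
  have e2 : c⁻¹ = (M ^ l)⁻¹ * (N ^ (1 - l))⁻¹ := by
    rw [hc, ENNReal.mul_inv (Or.inl hMl0) (Or.inl hMlt)]
  have m4 : c⁻¹ * ((∫⁻ x, f x) ^ l * (∫⁻ x, g x) ^ (1 - l)) ≤ c⁻¹ * ∫⁻ x, h x := by
    calc c⁻¹ * ((∫⁻ x, f x) ^ l * (∫⁻ x, g x) ^ (1 - l))
        = ((M ^ l)⁻¹ * (∫⁻ x, f x) ^ l) * ((N ^ (1 - l))⁻¹ * (∫⁻ x, g x) ^ (1 - l)) := by
          rw [e2]
          ring
      _ ≤ _ := m3
  exact (ENNReal.mul_le_mul_iff_right (ENNReal.inv_ne_zero.2 hct) (ENNReal.inv_ne_top.2 hc0)).1 m4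

theorem pll_real {l : ℝ} (hl : 0 < l) (hl1 : l < 1) : PLl l ℝ := by
  have hl' : 0 < 1 - l := by linarith
  intro f g h hf hg hh H
  have key : ∀ n : ℕ, (∫⁻ x, min (f x) n) ^ l * (∫⁻ x, min (g x) n) ^ (1 - l) ≤ ∫⁻ x, h x := by
    intro n
    set M := ⨆ x, min (f x) n with hM
    set N := ⨆ x, min (g x) n with hN
    rcases eq_or_ne M 0 with h0 | h0
    · have : ∀ x, min (f x) (n:ℝ≥0∞) = 0 := by
        intro x
        have := le_iSup (fun x => min (f x) (n:ℝ≥0∞)) x
        rw [← hM, h0] at this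
        exact le_antisymm this zero_le
      simp [this, ENNReal.zero_rpow_of_pos hl]
    rcases eq_or_ne N 0 with h0' | h0'
    · have : ∀ x, min (g x) (n:ℝ≥0∞) = 0 := by
        intro x
        have := le_iSup (fun x => min (g x) (n:ℝ≥0∞)) x
        rw [← hN, h0'] at this
        exact le_antisymm this zero_le
      simp [this, ENNReal.zero_rpow_of_pos hl']
    have hMt : M ≠ ⊤ := ne_top_of_le_ne_top (ENNReal.natCast_ne_top n)
      (iSup_le fun x => min_le_right _ _)
    have hNt : N ≠ ⊤ := ne_top_of_le_ne_top (ENNReal.natCast_ne_top n)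
      (iSup_le fun x => min_le_right _ _)
    apply pll_real_bdd hl hl1 _ _ h (by fun_prop) (by fun_prop) hh M N h0 h0' hMt hNt rfl rfl
    intro x y
    exact (mul_le_mul' (ENNReal.rpow_le_rpow (min_le_left _ _) hl.le)
      (ENNReal.rpow_le_rpow (min_le_left _ _) hl'.le)).trans (H x y)
  have mono : ∀ f : ℝ → ℝ≥0∞, Measurable f →
      Filter.Tendsto (fun n : ℕ => ∫⁻ x, min (f x) n) Filter.atTop (nhds (∫⁻ x, f x)) := by
    intro f hf
    apply lintegral_tendsto_of_tendsto_of_monotone (fun n => by fun_prop)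
    · refine Filter.Eventually.of_forall fun x => ?_
      intro m n hmn
      simp only
      gcongr
    · refine Filter.Eventually.of_forall fun x => ?_
      have : Filter.Tendsto (fun n : ℕ => min (f x) (n:ℝ≥0∞)) Filter.atTop
          (nhds (min (f x) ⊤)) :=
        tendsto_const_nhds.min ENNReal.tendsto_nat_nhds_top
      simpa using this
  rcases eq_or_ne (∫⁻ x, h x) ⊤ with hT | hT
  · simp [hT]
  rcases eq_or_ne (∫⁻ x, f x) 0 with hf0 | hf0
  · simp [hf0, ENNReal.zero_rpow_of_pos hl]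
  rcases eq_or_ne (∫⁻ x, g x) 0 with hg0 | hg0
  · simp [hg0, ENNReal.zero_rpow_of_pos hl']
  have t1 := (ENNReal.continuous_rpow_const (y := l)).tendsto _ |>.comp (mono f hf)
  have t2 := (ENNReal.continuous_rpow_const (y := 1 - l)).tendsto _ |>.comp (mono g hg)
  have n1 : (∫⁻ x, f x) ^ l ≠ 0 := by
    intro h0
    rcases ENNReal.rpow_eq_zero_iff.1 h0 with h | h
    · exact hf0 h.1
    · linarith [h.2]
  have n2 : (∫⁻ x, g x) ^ (1 - l) ≠ 0 := by
    intro h0
    rcases ENNReal.rpow_eq_zero_iff.1 h0 with h | h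
    · exact hg0 h.1
    · linarith [h.2]
  have := ENNReal.Tendsto.mul t1 (Or.inl n1) t2 (Or.inl n2)
  exact le_of_tendsto' this key

theorem PLl.prod {l : ℝ} {E F : Type*} [AddCommGroup E] [Module ℝ E] [MeasureSpace E]
    [AddCommGroup F] [Module ℝ F] [MeasureSpace F]
    [SFinite (volume : Measure E)] [SFinite (volume : Measure F)]
    (hE : PLl l E) (hF : PLl l F) : PLl l (E × F) := by
  intro f g h hf hg hh H
  rw [Measure.volume_eq_prod, lintegral_prod _ hf.aemeasurable, lintegral_prod _ hg.aemeasurable,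
    lintegral_prod _ hh.aemeasurable]
  apply hE _ _ _ hf.lintegral_prod_right' hg.lintegral_prod_right' hh.lintegral_prod_right'
  intro s t
  apply hF _ _ _ (hf.comp measurable_prodMk_left) (hg.comp measurable_prodMk_left)
    (hh.comp measurable_prodMk_left)
  intro y z
  exact H (s, y) (t, z)

theorem PLl.of_equiv {l : ℝ} {E F : Type*} [AddCommGroup E] [Module ℝ E] [MeasureSpace E]
    [AddCommGroup F] [Module ℝ F] [MeasureSpace F] (e : E ≃ᵐ F)
    (he : MeasurePreserving e volume volume)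
    (hlin : ∀ x y : E, e (l • x + (1 - l) • y) = l • e x + (1 - l) • e y)
    (hF : PLl l F) : PLl l E := by
  intro f g h hf hg hh H
  have key : ∀ f : E → ℝ≥0∞, ∫⁻ x, f x = ∫⁻ y, f (e.symm y) := by
    intro f
    rw [← he.lintegral_comp_emb e.measurableEmbedding]
    simp
  rw [key f, key g, key h]
  apply hF _ _ _ (hf.comp e.symm.measurable) (hg.comp e.symm.measurable)
    (hh.comp e.symm.measurable)
  intro x y
  have h1 := H (e.symm x) (e.symm y)
  have h2 : e.symm (l • x + (1 - l) • y) = l • e.symm x + (1 - l) • e.symm y := by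
    apply e.injective
    rw [hlin]
    simp
  simp only [Function.comp]
  rw [h2]
  exact h1

theorem pll_pi {l : ℝ} (hl : 0 < l) (hl1 : l < 1) (n : ℕ) : PLl l (Fin n → ℝ) := by
  have hl' : 0 < 1 - l := by linarith
  induction n with
  | zero =>
    intro f g h hf hg hh H
    have key : ∀ f : (Fin 0 → ℝ) → ℝ≥0∞, ∫⁻ x, f x = f 0 := by
      intro f
      rw [lintegral_unique]
      have : (volume : Measure (Fin 0 → ℝ)) univ = 1 := by
        rw [volume_pi, ← Set.pi_univ univ, Measure.pi_pi]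
        simp
      rw [this, mul_one]
      congr 1
      exact Subsingleton.elim _ _
    rw [key, key, key]
    have := H 0 0
    simpa using this
  | succ n ih =>
    apply PLl.of_equiv (MeasurableEquiv.piFinSuccAbove (fun _ => ℝ) 0)
      (volume_preserving_piFinSuccAbove (fun _ => ℝ) 0) _ ((pll_real hl hl1).prod ih)
    intro x y
    ext
    · rfl
    · rfl

/-- **Prékopa–Leindler inequality** in Euclidean space. -/
theorem pll_euc {l : ℝ} (hl : 0 < l) (hl1 : l < 1) (n : ℕ) :
    PLl l (EuclideanSpace ℝ (Fin n)) := by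
  apply PLl.of_equiv (MeasurableEquiv.toLp 2 (Fin n → ℝ)).symm
    (EuclideanSpace.volume_preserving_symm_measurableEquiv_toLp _) _ (pll_pi hl hl1 _)
  intro x y
  rfl

end Pool.Agent.H82.LSI
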